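import Mathlib

/-!
# Clones on a countably infinite set: the definitions

Definitions for the problem whether the clone generated by `T_2` is `Pol(T_2)`.
-/

namespace Pool.Agent.Lib_MP_944b5f_al

/-! ## Definitions used in the statement -/

/-- A finitary operation on `ω = ℕ` of arity at least one: a pair `⟨n, f⟩` where
`f : ω^(n+1) → ω`. -/
abbrev Operation : Type := Σ n : ℕ, (Fin (n + 1) → ℕ) → ℕ

/-- A set of finitary operations on `ω` is a clone if it contains all projections and is closed
under composition. -/
structure IsClone (C : Set Operation) : Prop where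
  proj_mem : ∀ (n : ℕ) (i : Fin (n + 1)), (⟨n, fun x => x i⟩ : Operation) ∈ C
  comp_mem : ∀ (m n : ℕ) (f : (Fin (m + 1) → ℕ) → ℕ)
    (g : Fin (m + 1) → (Fin (n + 1) → ℕ) → ℕ),
    (⟨m, f⟩ : Operation) ∈ C → (∀ i, (⟨n, g i⟩ : Operation) ∈ C) →
      (⟨n, fun x => f fun i => g i x⟩ : Operation) ∈ C

/-- The clone generated by a set `S` of operations: the intersection of all clones that
contain `S`. -/
def cloneGeneratedBy (S : Set Operation) : Set Operation :=
  ⋂₀ {C | IsClone C ∧ S ⊆ C}

/-- A binary function on `ω`, viewed as an operation. -/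
def ofBinary (f : ℕ → ℕ → ℕ) : Operation := ⟨1, fun x => f (x 0) (x 1)⟩

/-- The binary fragment of a set of operations: the set of its binary members. -/
def binaryFragment (C : Set Operation) : Set (ℕ → ℕ → ℕ) := {f | ofBinary f ∈ C}

/-- A binary operation `f` on `ω` is somewhere 1-1 if there are unary `u`, `v` such that
`(x, y) ↦ f (u x) (v y)` is injective on `∇ = {x < y}` or injective on `Δ = {x > y}`. -/
def SomewhereInjective (f : ℕ → ℕ → ℕ) : Prop :=
  ∃ u v : ℕ → ℕ,
    Set.InjOn (fun p : ℕ × ℕ => f (u p.1) (v p.2)) {p | p.1 < p.2} ∨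
    Set.InjOn (fun p : ℕ × ℕ => f (u p.1) (v p.2)) {p | p.1 > p.2}

/-- `T_2` is the set of all nowhere 1-1 binary operations on `ω`. -/
def T2 : Set (ℕ → ℕ → ℕ) := {f | ¬ SomewhereInjective f}

/-- `P` is `Pol(T)` for a set `T` of binary operations: `P` is the largest (with respect to
inclusion) among the clones on `ω` whose binary fragment is `T`. -/
def IsPol (T : Set (ℕ → ℕ → ℕ)) (P : Set Operation) : Prop :=
  IsGreatest {C : Set Operation | IsClone C ∧ binaryFragment C = T} P

end Pool.Agent.Lib_MP_944b5f_al
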