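import Pool.Agent.Lib_MP_944b5f_al.Defs

/-!
# The clone generated by `T_2` is `Pol(T_2)`: the proof

Every nowhere 1-1 operation `f` of arity `n` is a composition of nowhere 1-1 binary operations.
The domain is cut into finitely many pieces. Where two variables agree, the arity drops. Where
`z` is the strictly largest variable and `k` the second largest one, the part of `f` with values
bounded by a function of `k` is `G(h(k, z), rest)` with a binary `h` whose rows and columns have
finite range and with `G` nowhere 1-1 of smaller arity. The part with values above `k` is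
`H(e, z)`, where `e` is the code of the first tuple that gives the same value; `e` is again
nowhere 1-1 and its values are bounded by a function of `k`.
-/

namespace Pool.Agent.Lib_MP_944b5f_al

/-! ## Somewhere 1-1 operations of arbitrary arity -/

/-- The tuple whose `k`-th entry is `u k i` if `I k` is true and `u k j` otherwise. -/
def mix {ι : Type} (I : ι → Bool) (u : ι → ℕ → ℕ) (i j : ℕ) : ι → ℕ :=
  fun k => u k (if I k then i else j)

/-- Somewhere 1-1 for operations with an arbitrary index set of variables. -/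
def SW {ι : Type} (f : (ι → ℕ) → ℕ) : Prop :=
  ∃ (I : ι → Bool) (u : ι → ℕ → ℕ), ∀ i j i' j', j < i → j' < i' →
    f (mix I u i j) = f (mix I u i' j') → i = i' ∧ j = j'

lemma SW.of_tail {ι : Type} {f : (ι → ℕ) → ℕ} (I : ι → Bool) (u : ι → ℕ → ℕ) (N : ℕ)
    (h : ∀ i j i' j', N ≤ i → N ≤ i' → j < i → j' < i' →
      f (mix I u i j) = f (mix I u i' j') → i = i' ∧ j = j') : SW f := by
  refine ⟨I, fun k n => if I k then u k (n + N) else u k n, ?_⟩
  have key : ∀ i j, mix I (fun k n => if I k then u k (n + N) else u k n) i j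
      = mix I u (i + N) j := by
    intro i j
    funext k
    simp only [mix]
    by_cases hk : I k = true <;> simp [hk]
  intro i j i' j' hj hj' he
  rw [key, key] at he
  have := h (i + N) j (i' + N) j' (by omega) (by omega) (by omega) (by omega) he
  omega

lemma SW.exists_ne_zero {ι : Type} {f : (ι → ℕ) → ℕ} {I : ι → Bool} {u : ι → ℕ → ℕ}
    (h : ∀ i j i' j', j < i → j' < i' →
      f (mix I u i j) = f (mix I u i' j') → i = i' ∧ j = j') :
    ∃ N, ∀ i j, N ≤ i → j < i → f (mix I u i j) ≠ 0 := by
  by_cases hz : ∃ i₀ j₀, j₀ < i₀ ∧ f (mix I u i₀ j₀) = 0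
  · obtain ⟨i₀, j₀, hlt, h0⟩ := hz
    refine ⟨i₀ + 1, fun i j hi hj h0' => ?_⟩
    have := h i j i₀ j₀ hj hlt (h0'.trans h0.symm)
    omega
  · push Not at hz
    exact ⟨0, fun i j _ hj => hz i j hj⟩

/-- Transfer of the somewhere 1-1 property along a coordinatewise substitution. -/
lemma SW.transfer {κ ι : Type} {G : (κ → ℕ) → ℕ} {F : (ι → ℕ) → ℕ} (ρ : ι → κ)
    (ψ : ι → ℕ → ℕ)
    (h : ∀ v v', G v ≠ 0 → G v' ≠ 0 →
      F (fun i => ψ i (v (ρ i))) = F (fun i => ψ i (v' (ρ i))) → G v = G v')
    (hG : SW G) : SW F := by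
  obtain ⟨I, u, hu⟩ := hG
  obtain ⟨N, hN⟩ := SW.exists_ne_zero hu
  refine SW.of_tail (fun i => I (ρ i)) (fun i n => ψ i (u (ρ i) n)) N ?_
  intro i j i' j' hi hi' hj hj' he
  exact hu i j i' j' hj hj' (h _ _ (hN i j hi hj) (hN i' j' hi' hj') he)

lemma SW.of_somewhereInjective {g : ℕ → ℕ → ℕ} (h : SomewhereInjective g) :
    SW (fun w : Bool → ℕ => g (w true) (w false)) := by
  obtain ⟨u, v, h | h⟩ := h
  · refine ⟨fun b => !b, fun b => if b then u else v, ?_⟩
    intro i j i' j' hj hj' he
    have := @h (j, i) hj (j', i') hj' (by simpa [mix] using he)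
    simp only [Prod.mk.injEq] at this
    exact ⟨this.2, this.1⟩
  · refine ⟨fun b => b, fun b => if b then u else v, ?_⟩
    intro i j i' j' hj hj' he
    have := @h (i, j) hj (i', j') hj' (by simpa [mix] using he)
    simp only [Prod.mk.injEq] at this
    exact this

lemma somewhereInjective_of_pattern {g : ℕ → ℕ → ℕ} {a b : ℕ → ℕ} {s t : Bool}
    (h : ∀ i j i' j', j < i → j' < i' →
      g (a (if s then i else j)) (b (if t then i else j)) =
        g (a (if s then i' else j')) (b (if t then i' else j')) → i = i' ∧ j = j') :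
    SomewhereInjective g := by
  cases s <;> cases t
  · exact absurd (h 1 0 2 0 (by omega) (by omega) (by simp)).1 (by omega)
  · refine ⟨a, b, Or.inl ?_⟩
    rintro ⟨x, y⟩ hxy ⟨x', y'⟩ hxy' he
    have := h y x y' x' hxy hxy' (by simpa using he)
    simp [this.1, this.2]
  · refine ⟨a, b, Or.inr ?_⟩
    rintro ⟨x, y⟩ hxy ⟨x', y'⟩ hxy' he
    have := h x y x' y' hxy hxy' (by simpa using he)
    simp [this.1, this.2]
  · exact absurd (h 2 0 2 1 (by omega) (by omega) (by simp)).2 (by omega)

/-- An operation all of whose rows and columns have finite range is nowhere 1-1. -/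
lemma not_somewhereInjective_of_finite {g : ℕ → ℕ → ℕ}
    (hrow : ∀ x, (Set.range (g x)).Finite) (hcol : ∀ y, (Set.range fun x => g x y).Finite) :
    ¬ SomewhereInjective g := by
  rintro ⟨u, v, h | h⟩
  · have hinj : Function.Injective (fun n : ℕ => g (u 0) (v (n + 1))) := by
      intro n m hnm
      have := @h (0, n + 1) (by simp) (0, m + 1) (by simp) hnm
      simpa using this
    exact Set.infinite_range_of_injective hinj ((hrow (u 0)).subset (by
      rintro _ ⟨n, rfl⟩
      exact ⟨v (n + 1), rfl⟩))
  · have hinj : Function.Injective (fun n : ℕ => g (u (n + 1)) (v 0)) := by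
      intro n m hnm
      have := @h (n + 1, 0) (by simp) (m + 1, 0) (by simp) hnm
      simpa using this
    exact Set.infinite_range_of_injective hinj ((hcol (v 0)).subset (by
      rintro _ ⟨n, rfl⟩
      exact ⟨u (n + 1), rfl⟩))

/-! ## Families of functions closed under `T_2` -/

/-- A set of functions closed under all nowhere 1-1 binary operations. -/
def Closed {X : Type} (A : Set (X → ℕ)) : Prop :=
  ∀ g : ℕ → ℕ → ℕ, ¬ SomewhereInjective g → ∀ a ∈ A, ∀ b ∈ A, (fun x => g (a x) (b x)) ∈ A

lemma not_somewhereInjective_unary (φ : ℕ → ℕ) : ¬ SomewhereInjective (fun a _ => φ a) := by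
  rintro ⟨u, v, h | h⟩
  · have := @h (0, 1) (by simp) (0, 2) (by simp) rfl
    simp at this
  · have := @h (2, 0) (by simp) (2, 1) (by simp) rfl
    simp at this

lemma Closed.unary {X : Type} {A : Set (X → ℕ)} (hA : Closed A) (φ : ℕ → ℕ) {a : X → ℕ}
    (ha : a ∈ A) : (fun x => φ (a x)) ∈ A :=
  hA (fun a _ => φ a) (not_somewhereInjective_unary φ) a ha a ha

lemma Closed.const {X : Type} {A : Set (X → ℕ)} (hA : Closed A) (hne : A.Nonempty) (c : ℕ) :
    (fun _ => c) ∈ A := by
  obtain ⟨a, ha⟩ := hne
  exact hA.unary (fun _ => c) ha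

/-- Addition restricted to the two axes. -/
def axes (a b : ℕ) : ℕ := if a = 0 ∨ b = 0 then a + b else 0

lemma axes_comm (a b : ℕ) : axes a b = axes b a := by
  unfold axes
  by_cases ha : a = 0 <;> by_cases hb : b = 0 <;> simp [ha, hb]

lemma axes_three (a : ℕ) (ha : a ≠ 0) (b c d : ℕ) :
    axes a b = axes a c ∨ axes a b = axes a d ∨ axes a c = axes a d := by
  unfold axes
  by_cases hb : b = 0 <;> by_cases hc : c = 0 <;> by_cases hd : d = 0 <;> simp [ha, hb, hc, hd]

lemma axes_aux (u v : ℕ → ℕ)
    (h : ∀ x y x' y', x < y → x' < y' → axes (u x) (v y) = axes (u x') (v y') →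
      x = x' ∧ y = y') : False := by
  by_cases h0 : u 0 = 0
  · by_cases h1 : u 1 = 0
    · have := h 0 2 1 2 (by omega) (by omega) (by rw [h0, h1])
      omega
    · rcases axes_three (u 1) h1 (v 2) (v 3) (v 4) with e | e | e
      · have := h _ _ _ _ (by omega) (by omega) e
        omega
      · have := h _ _ _ _ (by omega) (by omega) e
        omega
      · have := h _ _ _ _ (by omega) (by omega) e
        omega
  · rcases axes_three (u 0) h0 (v 1) (v 2) (v 3) with e | e | e
    · have := h _ _ _ _ (by omega) (by omega) e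
      omega
    · have := h _ _ _ _ (by omega) (by omega) e
      omega
    · have := h _ _ _ _ (by omega) (by omega) e
      omega

/-- Addition restricted to the two axes is nowhere 1-1. -/
lemma not_somewhereInjective_axes : ¬ SomewhereInjective axes := by
  rintro ⟨u, v, h | h⟩
  · refine axes_aux u v ?_
    intro x y x' y' hxy hxy' he
    have := @h (x, y) hxy (x', y') hxy' he
    simpa using this
  · refine axes_aux v u ?_
    intro x y x' y' hxy hxy' he
    have := @h (y, x) hxy (y', x') hxy' (by simpa [axes_comm] using he)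
    simp only [Prod.mk.injEq] at this
    exact ⟨this.2, this.1⟩

lemma Closed.add {X : Type} {A : Set (X → ℕ)} (hA : Closed A) {a b : X → ℕ}
    (ha : a ∈ A) (hb : b ∈ A) (hd : ∀ x, a x = 0 ∨ b x = 0) : (fun x => a x + b x) ∈ A := by
  have := hA _ not_somewhereInjective_axes a ha b hb
  convert this using 2 with x
  simp [axes, hd x]

lemma Closed.sum {X P : Type} {A : Set (X → ℕ)} (hA : Closed A) (hne : A.Nonempty)
    (F : P → X → ℕ) (hF : ∀ p, F p ∈ A) (hd : ∀ p q, p ≠ q → ∀ x, F p x = 0 ∨ F q x = 0)
    (s : Finset P) : (fun x => ∑ p ∈ s, F p x) ∈ A := by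
  classical
  induction s using Finset.induction_on with
  | empty => simpa using hA.const hne 0
  | insert q s hq ih =>
    have : (fun x => ∑ p ∈ insert q s, F p x) = fun x => F q x + ∑ p ∈ s, F p x := by
      funext x
      rw [Finset.sum_insert hq]
    rw [this]
    refine hA.add (hF q) ih ?_
    intro x
    by_cases h0 : F q x = 0
    · exact Or.inl h0
    · right
      refine Finset.sum_eq_zero ?_
      intro p hp
      rcases hd q p (by rintro rfl; exact hq hp) x with h | h
      · exact absurd h h0
      · exact h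

/-! ## The bounded part -/

section Bounded

variable {X : Type} {A : Set (X → ℕ)} {ι : Type} [Fintype ι] [DecidableEq ι]

/-- `t'` is a substitute for `t` at the variable `z` over all tuples whose `k`-th entry is `x`. -/
def Subst (F : (ι → ℕ) → ℕ) (z k : ι) (x t t' : ℕ) : Prop :=
  ∀ w : ι → ℕ, w k = x → F (Function.update w z t') = F (Function.update w z t)

/-- The least `t' > x` which is a substitute for `t`. -/
noncomputable def leastSub (F : (ι → ℕ) → ℕ) (z k : ι) (x t : ℕ) : ℕ :=
  sInf {t' | x < t' ∧ Subst F z k x t t'}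

omit [Fintype ι] in
lemma leastSub_spec (F : (ι → ℕ) → ℕ) (z k : ι) {x t : ℕ} (h : x < t) :
    x < leastSub F z k x t ∧ Subst F z k x t (leastSub F z k x t) :=
  Nat.sInf_mem (s := {t' | x < t' ∧ Subst F z k x t t'}) ⟨t, h, fun _ _ => rfl⟩

omit [Fintype ι] in
lemma leastSub_congr (F : (ι → ℕ) → ℕ) (z k : ι) {x t t₂ : ℕ} (h : Subst F z k x t t₂) :
    leastSub F z k x t = leastSub F z k x t₂ := by
  unfold leastSub
  congr 1
  ext t'
  constructor
  · rintro ⟨h1, h2⟩
    exact ⟨h1, fun w hw => (h2 w hw).trans (h w hw).symm⟩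
  · rintro ⟨h1, h2⟩
    exact ⟨h1, fun w hw => (h2 w hw).trans (h w hw)⟩

lemma leastSub_range_finite (F : (ι → ℕ) → ℕ) (z k : ι) (hzk : z ≠ k) (θ : ℕ → ℕ)
    (hreg : ∀ w, F w ≠ 0 → w k < w z ∧ (∀ l, l ≠ z → w l ≤ w k) ∧ F w ≤ θ (w k)) (x : ℕ) :
    (Set.range (leastSub F z k x)).Finite := by
  classical
  let tab : ℕ → ((ι → Fin (x + 1)) → Fin (θ x + 1)) := fun t m =>
    ⟨min (F (Function.update (Function.update (fun l => (m l : ℕ)) k x) z t)) (θ x), by omega⟩
  have hfac : Function.FactorsThrough (leastSub F z k x) tab := by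
    intro t t₂ htab
    refine leastSub_congr F z k ?_
    intro w hw
    by_cases hsmall : ∀ l, l ≠ z → w l ≤ x
    · have hm := congrFun htab (fun l => ⟨min (w l) x, by omega⟩)
      simp only [tab, Fin.mk.injEq] at hm
      have hupd : ∀ s, Function.update (Function.update
          (fun l => ((⟨min (w l) x, by omega⟩ : Fin (x + 1)) : ℕ)) k x) z s
          = Function.update w z s := by
        intro s
        funext l
        by_cases hlz : l = z
        · subst hlz
          simp
        · rw [Function.update_of_ne hlz, Function.update_of_ne hlz]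
          by_cases hlk : l = k
          · subst hlk
            simp [hw]
          · rw [Function.update_of_ne hlk]
            simp [hsmall l hlz]
      rw [hupd, hupd] at hm
      have hb : ∀ s, F (Function.update w z s) ≤ θ x := by
        intro s
        by_cases h0 : F (Function.update w z s) = 0
        · omega
        · have := (hreg _ h0).2.2
          rwa [Function.update_of_ne hzk.symm, hw] at this
      have h1 := hb t
      have h2 := hb t₂
      omega
    · push Not at hsmall
      obtain ⟨l, hlz, hl⟩ := hsmall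
      have hz : ∀ s, F (Function.update w z s) = 0 := by
        intro s
        by_contra h0
        have := (hreg _ h0).2.1 l hlz
        rw [Function.update_of_ne hlz, Function.update_of_ne hzk.symm, hw] at this
        omega
      rw [hz, hz]
  have : leastSub F z k x = (Function.extend tab (leastSub F z k x) 0) ∘ tab := by
    funext t
    exact (hfac.extend_apply 0 t).symm
  rw [this]
  refine (Set.finite_range (Function.extend tab (leastSub F z k x) 0)).subset ?_
  rintro _ ⟨t, rfl⟩
  exact ⟨tab t, rfl⟩

/-- The binary function coding the relevant finite information about the variables `k`, `z`. -/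
noncomputable def info (F : (ι → ℕ) → ℕ) (z k : ι) (x t : ℕ) : ℕ :=
  if x < t then Nat.pair x (leastSub F z k x t) + 1 else 0

lemma info_mem (F : (ι → ℕ) → ℕ) (z k : ι) (hzk : z ≠ k) (θ : ℕ → ℕ)
    (hreg : ∀ w, F w ≠ 0 → w k < w z ∧ (∀ l, l ≠ z → w l ≤ w k) ∧ F w ≤ θ (w k)) :
    ¬ SomewhereInjective (info F z k) := by
  refine not_somewhereInjective_of_finite ?_ ?_
  · intro x
    refine (((leastSub_range_finite F z k hzk θ hreg x).image
      (fun r => Nat.pair x r + 1)).union (Set.finite_singleton 0)).subset ?_
    rintro _ ⟨t, rfl⟩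
    by_cases h : x < t
    · left
      exact ⟨leastSub F z k x t, ⟨t, rfl⟩, by simp [info, h]⟩
    · right
      simp [info, h]
  · intro t
    refine (((Set.finite_Iio t).image (fun x => info F z k x t)).union
      (Set.finite_singleton 0)).subset ?_
    rintro _ ⟨x, rfl⟩
    by_cases h : x < t
    · left
      exact ⟨x, h, rfl⟩
    · right
      simp [info, h]

lemma bounded_part (hA : Closed A) (F : (ι → ℕ) → ℕ) (hF : ¬ SW F) (z k : ι) (hzk : z ≠ k)
    (θ : ℕ → ℕ)
    (hreg : ∀ w, F w ≠ 0 → w k < w z ∧ (∀ l, l ≠ z → w l ≤ w k) ∧ F w ≤ θ (w k))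
    (ih : ∀ f : ({i // i ≠ z} → ℕ) → ℕ, ¬ SW f → ∀ a : {i // i ≠ z} → X → ℕ,
      (∀ i, a i ∈ A) → (fun x => f (fun i => a i x)) ∈ A)
    (a : ι → X → ℕ) (ha : ∀ i, a i ∈ A) : (fun x => F (fun i => a i x)) ∈ A := by
  classical
  let ρ : ι → {i // i ≠ z} := fun i => if h : i = z then ⟨k, hzk.symm⟩ else ⟨i, h⟩
  let ψ : ι → ℕ → ℕ := fun i n =>
    if i = z then (Nat.unpair (n - 1)).2 else if i = k then (Nat.unpair (n - 1)).1 else n
  let G : ({i // i ≠ z} → ℕ) → ℕ := fun v =>
    if v ⟨k, hzk.symm⟩ = 0 then 0 else F (fun i => ψ i (v (ρ i)))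
  have hG : ¬ SW G := by
    intro h
    refine hF (h.transfer ρ ψ ?_)
    intro v v' hv hv' he
    have h1 : v ⟨k, hzk.symm⟩ ≠ 0 := by
      intro h0
      exact hv (by simp [G, h0])
    have h2 : v' ⟨k, hzk.symm⟩ ≠ 0 := by
      intro h0
      exact hv' (by simp [G, h0])
    simp only [G, if_neg h1, if_neg h2]
    exact he
  let b : {i // i ≠ z} → X → ℕ := fun i =>
    if i.1 = k then (fun x => info F z k (a k x) (a z x)) else a i.1
  have hb : ∀ i, b i ∈ A := by
    intro i
    by_cases hi : i.1 = k
    · simp only [b, if_pos hi]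
      exact hA _ (info_mem F z k hzk θ hreg) _ (ha k) _ (ha z)
    · simp only [b, if_neg hi]
      exact ha i.1
  have key := ih G hG b hb
  convert key using 2 with x
  by_cases hlt : a k x < a z x
  · have hbk : b ⟨k, hzk.symm⟩ x = Nat.pair (a k x) (leastSub F z k (a k x) (a z x)) + 1 := by
      simp [b, info, hlt]
    have hne : b ⟨k, hzk.symm⟩ x ≠ 0 := by
      rw [hbk]
      omega
    simp only [G, if_neg hne]
    obtain ⟨_, hs⟩ := leastSub_spec F z k hlt
    have h1 := hs (fun i => a i x) rfl
    rw [Function.update_eq_self] at h1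
    rw [← h1]
    congr 1
    funext i
    by_cases hiz : i = z
    · subst hiz
      simp [ψ, ρ, hbk]
    · rw [Function.update_of_ne hiz]
      by_cases hik : i = k
      · subst hik
        simp [ψ, ρ, hiz, hbk]
      · simp [ψ, ρ, hiz, hik, b]
  · have hbk : b ⟨k, hzk.symm⟩ x = 0 := by
      simp [b, info, hlt]
    have h0 : F (fun i => a i x) = 0 := by
      by_contra h
      exact hlt (hreg _ h).1
    simp only [G, if_pos hbk]
    exact h0

end Bounded

/-! ## The large part -/

section Large

variable {X : Type} {A : Set (X → ℕ)} {ι : Type} [Fintype ι] [DecidableEq ι]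

/-- The code (plus one) of the first tuple which gives the same value as `w`. -/
noncomputable def firstCode (F : (ι → ℕ) → ℕ) (z : ι) (dec : ℕ → ι → ℕ) (w : ι → ℕ) : ℕ :=
  if F w = 0 then 0 else sInf {c | F (Function.update (dec c) z (w z)) = F w} + 1

omit [Fintype ι] in
lemma firstCode_spec (F : (ι → ℕ) → ℕ) (z : ι) {dec : ℕ → ι → ℕ} {enc : (ι → ℕ) → ℕ}
    (hde : ∀ w, dec (enc w) = w) {w : ι → ℕ} (hw : F w ≠ 0) :
    F (Function.update (dec (firstCode F z dec w - 1)) z (w z)) = F w ∧
      firstCode F z dec w ≤ enc (Function.update w z 0) + 1 ∧ firstCode F z dec w ≠ 0 := by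
  have hmem : enc (Function.update w z 0) ∈
      {c | F (Function.update (dec c) z (w z)) = F w} := by
    simp [hde]
  have h1 := Nat.sInf_mem (s := {c | F (Function.update (dec c) z (w z)) = F w}) ⟨_, hmem⟩
  have h2 := Nat.sInf_le hmem
  simp only [firstCode, if_neg hw, Nat.add_sub_cancel]
  exact ⟨h1, by omega, by omega⟩

omit [Fintype ι] in
lemma firstCode_congr (F : (ι → ℕ) → ℕ) (z : ι) (dec : ℕ → ι → ℕ) {w w' : ι → ℕ}
    (h : F w = F w') (hz : w z = w' z) : firstCode F z dec w = firstCode F z dec w' := by
  simp only [firstCode, h, hz]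

/-- Every sequence of bounds can be eventually exceeded along an unbounded sequence: a strictly
increasing subsequence. -/
lemma exists_fast (N : ℕ) (x : ℕ → ℕ) (B : ℕ → ℕ) (hx : ∀ b n : ℕ, ∃ i, n < i ∧ b ≤ x i) :
    ∃ s : ℕ → ℕ, N ≤ s 0 ∧ StrictMono s ∧ ∀ n, B (s n) ≤ x (s (n + 1)) := by
  choose g hg1 hg2 using hx
  refine ⟨fun n => Nat.rec N (fun _ m => g (B m) m) n, le_refl _, ?_, ?_⟩
  · refine strictMono_nat_of_lt_succ ?_
    intro n
    exact hg1 _ _
  · intro n
    exact hg2 _ _

omit [Fintype ι] in
lemma large_not_SW (F : (ι → ℕ) → ℕ) (hF : ¬ SW F) (z k : ι)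
    (hreg : ∀ w, F w ≠ 0 → w k < w z ∧ (∀ l, l ≠ z → w l ≤ w k) ∧ w k < F w)
    (dec : ℕ → ι → ℕ) (θ : ℕ → ℕ)
    (hθ : ∀ w, firstCode F z dec w ≠ 0 → firstCode F z dec w ≤ θ (w k)) :
    ¬ SW (firstCode F z dec) := by
  rintro ⟨I, u, hu⟩
  have hne : ∀ w, firstCode F z dec w ≠ 0 → F w ≠ 0 := by
    intro w hw h0
    exact hw (by simp [firstCode, h0])
  -- a sequence of values indexed by the larger index cannot be bounded
  have hunb : ∀ (b n : ℕ), ∃ i, n < i ∧ b < firstCode F z dec (mix I u i 0) := by
    intro b n
    by_contra hcon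
    push Not at hcon
    have hinj : Function.Injective
        (fun m : ℕ => firstCode F z dec (mix I u (n + 1 + m) 0)) := by
      intro m m' hm
      have := hu (n + 1 + m) 0 (n + 1 + m') 0 (by omega) (by omega) hm
      omega
    refine Set.infinite_range_of_injective hinj ((Set.finite_Iic b).subset ?_)
    rintro _ ⟨m, rfl⟩
    exact hcon _ (by omega)
  obtain ⟨N, hN⟩ := SW.exists_ne_zero hu
  -- the bound `θ` on a bounded set
  have hsup : ∀ M x, x ≤ M → θ x ≤ (Finset.range (M + 1)).sup θ := by
    intro M x hx
    exact Finset.le_sup (f := θ) (by simp; omega)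
  have hIz : I z = true := by
    by_contra hz
    obtain ⟨i, hi, hb⟩ := hunb ((Finset.range (u z 0 + 1)).sup θ) 0
    have h0 : firstCode F z dec (mix I u i 0) ≠ 0 := by omega
    have h1 := (hreg _ (hne _ h0)).1
    have h2 : mix I u i 0 z = u z 0 := by simp [mix, hz]
    have h3 := hsup (u z 0) (mix I u i 0 k) (by omega)
    have h4 := hθ _ h0
    omega
  have hIk : I k = true := by
    by_contra hk
    obtain ⟨i, hi, hb⟩ := hunb (θ (u k 0)) 0
    have h0 : firstCode F z dec (mix I u i 0) ≠ 0 := by omega
    have h2 : mix I u i 0 k = u k 0 := by simp [mix, hk]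
    have h4 := hθ _ h0
    rw [h2] at h4
    omega
  have hmk : ∀ i j, mix I u i j k = u k i := by
    intro i j
    simp [mix, hIk]
  have hmz : ∀ i j, mix I u i j z = u z i := by
    intro i j
    simp [mix, hIz]
  have hxunb : ∀ b n : ℕ, ∃ i, n < i ∧ b ≤ u k i := by
    intro b n
    obtain ⟨i, hi, hb⟩ := hunb ((Finset.range (b + 1)).sup θ) n
    refine ⟨i, hi, ?_⟩
    by_contra hlt
    have h0 : firstCode F z dec (mix I u i 0) ≠ 0 := by omega
    have h3 := hsup b (mix I u i 0 k) (by rw [hmk]; omega)
    have h4 := hθ _ h0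
    omega
  obtain ⟨s, hs0, hsm, hsB⟩ := exists_fast N (u k)
    (fun n => (Finset.range (n + 1)).sup (fun i => (Finset.range i).sup
      (fun j => F (mix I u i j)))) hxunb
  have hsN : ∀ n, N ≤ s n := fun n => le_trans hs0 (hsm.monotone (Nat.zero_le n))
  have hsn : ∀ n, n ≤ s n := fun n => hsm.id_le n
  have hbig : ∀ n m j j', n < m → j < s n → j' < s m →
      F (mix I u (s n) j) < F (mix I u (s m) j') := by
    intro n m j j' hnm hj hj'
    obtain ⟨m', rfl⟩ : ∃ m', m = m' + 1 := ⟨m - 1, by omega⟩
    have h1 := hsB m'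
    have h2 : F (mix I u (s n) j) ≤ (Finset.range (s m' + 1)).sup (fun i =>
        (Finset.range i).sup (fun j => F (mix I u i j))) := by
      have hle : s n ≤ s m' := hsm.monotone (by omega)
      refine le_trans ?_ (Finset.le_sup (f := fun i => (Finset.range i).sup
        (fun j => F (mix I u i j))) (b := s n) (by simp; omega))
      exact Finset.le_sup (f := fun j => F (mix I u (s n) j)) (by simpa using hj)
    have h3 := (hreg _ (hne _ (hN (s (m' + 1)) j' (hsN _) hj'))).2.2
    rw [hmk] at h3
    omega
  refine hF ⟨I, fun l n => if I l then u l (s n) else u l n, ?_⟩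
  have hmix : ∀ n j, mix I (fun l n => if I l then u l (s n) else u l n) n j
      = mix I u (s n) j := by
    intro n j
    funext l
    by_cases hl : I l = true <;> simp [mix, hl]
  intro n j n' j' hj hj' he
  rw [hmix, hmix] at he
  have hjs : j < s n := lt_of_lt_of_le hj (hsn n)
  have hjs' : j' < s n' := lt_of_lt_of_le hj' (hsn n')
  rcases lt_trichotomy n n' with hlt | heq | hgt
  · have := hbig n n' j j' hlt hjs hjs'
    omega
  · subst heq
    have := firstCode_congr F z dec he (by rw [hmz, hmz])
    exact ⟨rfl, (hu _ _ _ _ hjs hjs' this).2⟩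
  · have := hbig n' n j' j hgt hjs' hjs
    omega

lemma large_part (hA : Closed A) (F : (ι → ℕ) → ℕ) (hF : ¬ SW F) (z k : ι) (hzk : z ≠ k)
    (hreg : ∀ w, F w ≠ 0 → w k < w z ∧ (∀ l, l ≠ z → w l ≤ w k) ∧ w k < F w)
    (ih : ∀ f : ({i // i ≠ z} → ℕ) → ℕ, ¬ SW f → ∀ a : {i // i ≠ z} → X → ℕ,
      (∀ i, a i ∈ A) → (fun x => f (fun i => a i x)) ∈ A)
    (a : ι → X → ℕ) (ha : ∀ i, a i ∈ A) : (fun x => F (fun i => a i x)) ∈ A := by
  classical
  obtain ⟨dec, hdec⟩ := exists_surjective_nat (ι → ℕ)
  obtain ⟨enc, hde⟩ : ∃ enc : (ι → ℕ) → ℕ, ∀ w, dec (enc w) = w :=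
    ⟨Function.surjInv hdec, Function.surjInv_eq hdec⟩
  have hne : ∀ w, firstCode F z dec w ≠ 0 → F w ≠ 0 := by
    intro w hw h0
    exact hw (by simp [firstCode, h0])
  let θ : ℕ → ℕ := fun x =>
    (Finset.univ : Finset (ι → Fin (x + 1))).sup
      (fun m => enc (Function.update (fun l => (m l : ℕ)) z 0)) + 1
  have hθ : ∀ w, firstCode F z dec w ≠ 0 → firstCode F z dec w ≤ θ (w k) := by
    intro w hw
    obtain ⟨_, h2, _⟩ := firstCode_spec F z hde (hne w hw)
    refine le_trans h2 ?_
    have hr := (hreg w (hne w hw)).2.1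
    have hupd : Function.update w z 0 = Function.update
        (fun l => ((⟨min (w l) (w k), by omega⟩ : Fin (w k + 1)) : ℕ)) z 0 := by
      funext l
      by_cases hlz : l = z
      · subst hlz
        simp
      · rw [Function.update_of_ne hlz, Function.update_of_ne hlz]
        simp [hr l hlz]
    rw [hupd]
    refine Nat.add_le_add_right ?_ 1
    exact Finset.le_sup (s := (Finset.univ : Finset (ι → Fin (w k + 1))))
      (f := fun m => enc (Function.update (fun l => (m l : ℕ)) z 0)) (Finset.mem_univ _)
  have he : ¬ SW (firstCode F z dec) := large_not_SW F hF z k hreg dec θ hθ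
  have hmem : (fun x => firstCode F z dec (fun i => a i x)) ∈ A := by
    refine bounded_part hA (firstCode F z dec) he z k hzk θ ?_ ih a ha
    intro w hw
    have := hreg w (hne w hw)
    exact ⟨this.1, this.2.1, hθ w hw⟩
  let H : ℕ → ℕ → ℕ := fun c t => if c = 0 then 0 else F (Function.update (dec (c - 1)) z t)
  have hH : ¬ SomewhereInjective H := by
    intro h
    refine hF ((SW.of_somewhereInjective h).transfer (fun i => if i = z then false else true)
      (fun i n => if i = z then n else dec (n - 1) i) ?_)
    intro v v' hv hv' hvv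
    have h1 : v true ≠ 0 := by
      intro h0
      exact hv (by simp [H, h0])
    have h2 : v' true ≠ 0 := by
      intro h0
      exact hv' (by simp [H, h0])
    have hupd : ∀ v : Bool → ℕ, (fun i => if i = z then v (if i = z then false else true)
        else dec (v (if i = z then false else true) - 1) i)
        = Function.update (dec (v true - 1)) z (v false) := by
      intro v
      funext i
      by_cases hiz : i = z
      · subst hiz
        simp
      · simp [hiz]
    rw [hupd, hupd] at hvv
    simp only [H, if_neg h1, if_neg h2]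
    exact hvv
  have key := hA H hH _ hmem _ (ha z)
  convert key using 2 with x
  by_cases h0 : F (fun i => a i x) = 0
  · simp [H, firstCode, h0]
  · obtain ⟨h1, _, h3⟩ := firstCode_spec F z hde h0
    simp only [H, if_neg h3]
    exact h1.symm

end Large

/-! ## Identification of two variables -/

section Tie

variable {X : Type} {A : Set (X → ℕ)} {ι : Type} [DecidableEq ι]

/-- The equality test which remembers the common value. -/
def eqTest (x y : ℕ) : ℕ := if x = y then x + 1 else 0

lemma not_somewhereInjective_eqTest : ¬ SomewhereInjective eqTest := by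
  refine not_somewhereInjective_of_finite ?_ ?_
  · intro x
    refine ((Set.finite_Iic (x + 1))).subset ?_
    rintro _ ⟨y, rfl⟩
    simp only [eqTest, Set.mem_Iic]
    split_ifs <;> omega
  · intro y
    refine ((Set.finite_Iic (y + 1))).subset ?_
    rintro _ ⟨x, rfl⟩
    simp only [eqTest, Set.mem_Iic]
    split_ifs <;> omega

lemma tie_part (hA : Closed A) (F : (ι → ℕ) → ℕ) (hF : ¬ SW F) (z k : ι) (hzk : z ≠ k)
    (hreg : ∀ w, F w ≠ 0 → w k = w z)
    (ih : ∀ f : ({i // i ≠ z} → ℕ) → ℕ, ¬ SW f → ∀ a : {i // i ≠ z} → X → ℕ,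
      (∀ i, a i ∈ A) → (fun x => f (fun i => a i x)) ∈ A)
    (a : ι → X → ℕ) (ha : ∀ i, a i ∈ A) : (fun x => F (fun i => a i x)) ∈ A := by
  let ρ : ι → {i // i ≠ z} := fun i => if h : i = z then ⟨k, hzk.symm⟩ else ⟨i, h⟩
  let ψ : ι → ℕ → ℕ := fun i n => if i = z ∨ i = k then n - 1 else n
  let G : ({i // i ≠ z} → ℕ) → ℕ := fun v =>
    if v ⟨k, hzk.symm⟩ = 0 then 0 else F (fun i => ψ i (v (ρ i)))
  have hG : ¬ SW G := by
    intro h
    refine hF (h.transfer ρ ψ ?_)
    intro v v' hv hv' he
    have h1 : v ⟨k, hzk.symm⟩ ≠ 0 := by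
      intro h0
      exact hv (by simp [G, h0])
    have h2 : v' ⟨k, hzk.symm⟩ ≠ 0 := by
      intro h0
      exact hv' (by simp [G, h0])
    simp only [G, if_neg h1, if_neg h2]
    exact he
  let b : {i // i ≠ z} → X → ℕ := fun i =>
    if i.1 = k then (fun x => eqTest (a k x) (a z x)) else a i.1
  have hb : ∀ i, b i ∈ A := by
    intro i
    by_cases hi : i.1 = k
    · simp only [b, if_pos hi]
      exact hA _ not_somewhereInjective_eqTest _ (ha k) _ (ha z)
    · simp only [b, if_neg hi]
      exact ha i.1
  have key := ih G hG b hb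
  convert key using 2 with x
  by_cases heq : a k x = a z x
  · have hbk : b ⟨k, hzk.symm⟩ x = a z x + 1 := by
      simp [b, eqTest, heq]
    have hne : b ⟨k, hzk.symm⟩ x ≠ 0 := by
      rw [hbk]
      omega
    simp only [G, if_neg hne]
    congr 1
    funext i
    by_cases hiz : i = z
    · subst hiz
      simp [ψ, ρ, hbk]
    · by_cases hik : i = k
      · subst hik
        simp [ψ, ρ, hiz, hbk, heq]
      · simp [ψ, ρ, hiz, hik, b]
  · have hbk : b ⟨k, hzk.symm⟩ x = 0 := by
      simp [b, eqTest, heq]
    have h0 : F (fun i => a i x) = 0 := by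
      by_contra h
      exact heq (hreg _ h)
    simp only [G, if_pos hbk]
    exact h0

end Tie

/-! ## Every nowhere 1-1 operation is generated by nowhere 1-1 binary operations -/

/-- The pieces of the domain. -/
def Piece {ι : Type} (p : Bool × ι × ι) (w : ι → ℕ) : Prop :=
  p.2.1 ≠ p.2.2 ∧
    if p.1 then w p.2.2 = w p.2.1
    else w p.2.2 < w p.2.1 ∧ ∀ l, l ≠ p.2.1 → w l ≤ w p.2.2

lemma exists_piece {ι : Type} [Fintype ι] [DecidableEq ι] (h : 2 ≤ Fintype.card ι)
    (w : ι → ℕ) : ∃ p, Piece p w := by
  by_cases hinj : Function.Injective w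
  · have : Nonempty ι := Fintype.card_pos_iff.mp (by omega)
    obtain ⟨z, _, hz⟩ := Finset.exists_max_image Finset.univ w Finset.univ_nonempty
    have hne : (Finset.univ.erase z).Nonempty := by
      rw [← Finset.card_pos, Finset.card_erase_of_mem (Finset.mem_univ z), Finset.card_univ]
      omega
    obtain ⟨k, hk, hk'⟩ := Finset.exists_max_image (Finset.univ.erase z) w hne
    have hkz : k ≠ z := Finset.ne_of_mem_erase hk
    refine ⟨(false, z, k), hkz.symm, ?_⟩
    simp only [Bool.false_eq_true, if_false]
    refine ⟨lt_of_le_of_ne (hz k (Finset.mem_univ k)) (fun he => hkz (hinj he)), ?_⟩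
    intro l hl
    exact hk' l (Finset.mem_erase.mpr ⟨hl, Finset.mem_univ l⟩)
  · simp only [Function.Injective, not_forall] at hinj
    obtain ⟨k, z, he, hne⟩ := hinj
    exact ⟨(true, z, k), fun h => hne h.symm, by simpa using he⟩

theorem mem_of_not_SW {X : Type} {A : Set (X → ℕ)} (hA : Closed A) (hne : A.Nonempty) (n : ℕ) :
    ∀ (ι : Type) [Fintype ι] [DecidableEq ι], Fintype.card ι = n →
      ∀ f : (ι → ℕ) → ℕ, ¬ SW f → ∀ a : ι → X → ℕ, (∀ i, a i ∈ A) →
        (fun x => f (fun i => a i x)) ∈ A := by
  classical
  induction n with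
  | zero =>
    intro ι _ _ hcard f _ a _
    have : IsEmpty ι := Fintype.card_eq_zero_iff.mp hcard
    have : (fun x => f (fun i => a i x)) = fun _ => f isEmptyElim := by
      funext x
      congr 1
      funext i
      exact isEmptyElim i
    rw [this]
    exact hA.const hne _
  | succ n ih =>
    intro ι _ _ hcard f hf a ha
    by_cases hn : n = 0
    · subst hn
      obtain ⟨i₀, hi₀⟩ := Fintype.card_eq_one_iff.mp hcard
      have := hA.unary (fun m => f (fun _ => m)) (ha i₀)
      convert this using 2 with x
      congr 1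
      funext i
      rw [hi₀ i]
    have h2 : 2 ≤ Fintype.card ι := by omega
    choose piece hpiece using exists_piece (ι := ι) h2
    have ih' : ∀ z : ι, ∀ f : ({i // i ≠ z} → ℕ) → ℕ, ¬ SW f → ∀ a : {i // i ≠ z} → X → ℕ,
        (∀ i, a i ∈ A) → (fun x => f (fun i => a i x)) ∈ A := by
      intro z
      refine ih {i // i ≠ z} ?_
      rw [Fintype.card_subtype_compl, Fintype.card_subtype_eq, hcard]
      omega
    let F : Bool × ι × ι → (ι → ℕ) → ℕ := fun p w => if piece w = p then f w + 1 else 0
    have hFne : ∀ p w, F p w ≠ 0 → piece w = p := by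
      intro p w hw
      by_contra h
      exact hw (by simp [F, h])
    have hF : ∀ p, ¬ SW (F p) := by
      intro p hp
      refine hf (hp.transfer id (fun _ n => n) ?_)
      intro v v' hv hv' he
      have h1 := hFne p v hv
      have h2 := hFne p v' hv'
      simp only [id] at he
      simp only [F, if_pos h1, if_pos h2]
      rw [show v = fun i => v i from rfl, he]
    have hFA : ∀ p, (fun x => F p (fun i => a i x)) ∈ A := by
      rintro ⟨b, z, k⟩
      by_cases hzk : z = k
      · have : (fun x => F (b, z, k) (fun i => a i x)) = fun _ => 0 := by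
          funext x
          by_contra h0
          have h1 := hFne _ _ h0
          have h3 := (hpiece (fun i => a i x)).1
          rw [h1] at h3
          exact h3 hzk
        rw [this]
        exact hA.const hne 0
      · cases b
        · have hreg : ∀ w, F (false, z, k) w ≠ 0 → w k < w z ∧ ∀ l, l ≠ z → w l ≤ w k := by
            intro w hw
            have h1 := hFne _ _ hw
            have h3 := (hpiece w).2
            rw [h1] at h3
            simpa using h3
          let F₁ : (ι → ℕ) → ℕ := fun w => if F (false, z, k) w ≤ w k then F (false, z, k) w else 0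
          let F₂ : (ι → ℕ) → ℕ := fun w => if F (false, z, k) w ≤ w k then 0 else F (false, z, k) w
          have hF₁ : ¬ SW F₁ := by
            intro h
            refine hF (false, z, k) (h.transfer id (fun _ n => n) ?_)
            intro v v' hv hv' he
            have h1 : F (false, z, k) v ≤ v k := by
              by_contra hc
              exact hv (by simp only [F₁, if_neg hc])
            have h2 : F (false, z, k) v' ≤ v' k := by
              by_contra hc
              exact hv' (by simp only [F₁, if_neg hc])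
            simp only [F₁, if_pos h1, if_pos h2]
            exact he
          have hF₂ : ¬ SW F₂ := by
            intro h
            refine hF (false, z, k) (h.transfer id (fun _ n => n) ?_)
            intro v v' hv hv' he
            have h1 : ¬ F (false, z, k) v ≤ v k := by
              intro hc
              exact hv (by simp only [F₂, if_pos hc])
            have h2 : ¬ F (false, z, k) v' ≤ v' k := by
              intro hc
              exact hv' (by simp only [F₂, if_pos hc])
            simp only [F₂, if_neg h1, if_neg h2]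
            exact he
          have m₁ : (fun x => F₁ (fun i => a i x)) ∈ A := by
            refine bounded_part hA F₁ hF₁ z k hzk id ?_ (ih' z) a ha
            intro w hw
            have h1 : F (false, z, k) w ≤ w k := by
              by_contra hc
              exact hw (by simp only [F₁, if_neg hc])
            simp only [F₁, if_pos h1] at hw ⊢
            exact ⟨(hreg w hw).1, (hreg w hw).2, h1⟩
          have m₂ : (fun x => F₂ (fun i => a i x)) ∈ A := by
            refine large_part hA F₂ hF₂ z k hzk ?_ (ih' z) a ha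
            intro w hw
            have h1 : ¬ F (false, z, k) w ≤ w k := by
              intro hc
              exact hw (by simp only [F₂, if_pos hc])
            simp only [F₂, if_neg h1] at hw ⊢
            exact ⟨(hreg w hw).1, (hreg w hw).2, by omega⟩
          have := hA.add m₁ m₂ (fun x => by
            by_cases hc : F (false, z, k) (fun i => a i x) ≤ a k x
            · right
              simp only [F₂, if_pos hc]
            · left
              simp only [F₁, if_neg hc])
          convert this using 2 with x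
          by_cases hc : F (false, z, k) (fun i => a i x) ≤ a k x
          · simp only [F₁, F₂, if_pos hc, add_zero]
          · simp only [F₁, F₂, if_neg hc, zero_add]
        · refine tie_part hA (F (true, z, k)) (hF _) z k hzk ?_ (ih' z) a ha
          intro w hw
          have h1 := hFne _ _ hw
          have h3 := (hpiece w).2
          rw [h1] at h3
          simpa using h3
    have hsum := hA.sum hne (fun p x => F p (fun i => a i x)) hFA (by
      intro p q hpq x
      by_cases h0 : F p (fun i => a i x) = 0
      · exact Or.inl h0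
      · right
        by_contra h1
        exact hpq ((hFne _ _ h0).symm.trans (hFne _ _ h1))) Finset.univ
    have := hA.unary (fun m => m - 1) hsum
    convert this using 2 with x
    simp [F]

/-! ## Canonical functions on pairs -/

lemma exists_seq_of_finset (Inv : Finset ℕ → Prop) (Q : Finset ℕ → ℕ → Prop) (h0 : Inv ∅)
    (h : ∀ s : Finset ℕ, Inv s → ∃ y, (∀ x ∈ s, x < y) ∧ Q s y ∧ Inv (insert y s)) :
    ∃ φ : ℕ → ℕ, StrictMono φ ∧ ∀ n, Q ((Finset.range n).image φ) (φ n) := by
  choose! c hc1 hc2 hc3 using h
  let s : ℕ → Finset ℕ := fun n => Nat.rec ∅ (fun _ t => insert (c t) t) n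
  have hs : ∀ n, Inv (s n) := by
    intro n
    induction n with
    | zero => exact h0
    | succ n ih => exact hc3 _ ih
  have himg : ∀ n, s n = (Finset.range n).image (fun n => c (s n)) := by
    intro n
    induction n with
    | zero => simp [s]
    | succ n ih =>
      have : s (n + 1) = insert (c (s n)) (s n) := rfl
      rw [this, Finset.range_add_one, Finset.image_insert, ← ih]
  refine ⟨fun n => c (s n), ?_, ?_⟩
  · refine strictMono_nat_of_lt_succ ?_
    intro n
    refine hc1 (s (n + 1)) (hs (n + 1)) _ ?_
    have : s (n + 1) = insert (c (s n)) (s n) := rfl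
    rw [this]
    exact Finset.mem_insert_self _ _
  · intro n
    rw [← himg n]
    exact hc2 _ (hs n)

/-- A form of the canonical Ramsey theorem for pairs. -/
lemma canonical (γ : ℕ → ℕ → ℕ) : ∃ φ : ℕ → ℕ, StrictMono φ ∧
    ((∀ i j i' j', j < i → j' < i' → γ (φ i) (φ j) = γ (φ i') (φ j') → i = i' ∧ j = j') ∨
      ∃ (s : Bool) (a : ℕ → ℕ), ∀ i j, j < i → γ (φ i) (φ j) = a (if s then i else j)) := by
  classical
  let U : Ultrafilter ℕ := Filter.hyperfilter ℕ
  have hgt : ∀ s : Finset ℕ, ∀ᶠ y in (U : Filter ℕ), ∀ x ∈ s, x < y := by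
    intro s
    rw [Filter.eventually_all_finset]
    intro x _
    refine Filter.mem_hyperfilter_of_finite_compl ?_
    refine (Set.finite_Iic x).subset ?_
    intro y hy
    simpa using hy
  -- selection of a sequence along which eventual properties hold
  have hsel : ∀ (Inv : Finset ℕ → Prop) (Q : Finset ℕ → ℕ → Prop), Inv ∅ →
      (∀ s : Finset ℕ, Inv s → ∀ᶠ y in (U : Filter ℕ), Q s y ∧ Inv (insert y s)) →
      ∃ φ : ℕ → ℕ, StrictMono φ ∧ ∀ n, Q ((Finset.range n).image φ) (φ n) := by
    intro Inv Q h0 hQ
    refine exists_seq_of_finset Inv Q h0 ?_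
    intro s hs
    exact ((hgt s).and (hQ s hs)).exists
  have hmem : ∀ (φ : ℕ → ℕ) (i j : ℕ), j < i → φ j ∈ (Finset.range i).image φ := by
    intro φ i j hji
    exact Finset.mem_image.mpr ⟨j, by simpa using hji, rfl⟩
  by_cases h1 : ∀ᶠ j in (U : Filter ℕ), ∃ c, ∀ᶠ i in (U : Filter ℕ), γ i j = c
  · -- the value depends on the smaller index only
    choose! c hc using fun (j : ℕ) (h : ∃ c, ∀ᶠ i in (U : Filter ℕ), γ i j = c) => h
    obtain ⟨φ, hφ, hφ'⟩ := hsel
      (fun s => ∀ j ∈ s, ∃ c, ∀ᶠ i in (U : Filter ℕ), γ i j = c)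
      (fun s i => ∀ j ∈ s, γ i j = c j) (by simp) (by
        intro s hs
        refine Filter.Eventually.and ?_ ?_
        · rw [Filter.eventually_all_finset]
          intro j hj
          exact hc j (hs j hj)
        · refine h1.mono ?_
          intro y hy j hj
          rcases Finset.mem_insert.mp hj with rfl | hj
          · exact hy
          · exact hs j hj)
    refine ⟨φ, hφ, Or.inr ⟨false, fun j => c (φ j), ?_⟩⟩
    intro i j hji
    simpa using hφ' i (φ j) (hmem φ i j hji)
  · rw [← Ultrafilter.eventually_not] at h1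
    by_cases h2 : ∃ j₀, ∀ᶠ j in (U : Filter ℕ), ∀ᶠ i in (U : Filter ℕ), γ i j = γ i j₀
    · obtain ⟨j₀, hj₀⟩ := h2
      obtain ⟨φ, hφ, hφ'⟩ := hsel
        (fun s => ∀ j ∈ s, ∀ᶠ i in (U : Filter ℕ), γ i j = γ i j₀)
        (fun s i => ∀ j ∈ s, γ i j = γ i j₀) (by simp) (by
          intro s hs
          refine Filter.Eventually.and ?_ ?_
          · rw [Filter.eventually_all_finset]
            intro j hj
            exact hs j hj
          · refine hj₀.mono ?_
            intro y hy j hj
            rcases Finset.mem_insert.mp hj with rfl | hj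
            · exact hy
            · exact hs j hj)
      refine ⟨φ, hφ, Or.inr ⟨true, fun i => γ (φ i) j₀, ?_⟩⟩
      intro i j hji
      simpa using hφ' i (φ j) (hmem φ i j hji)
    · push Not at h2
      have h1' : ∀ᶠ j in (U : Filter ℕ), ∀ c, ∀ᶠ i in (U : Filter ℕ), γ i j ≠ c := by
        refine h1.mono ?_
        intro j hj c
        push Not at hj
        exact hj c
      obtain ⟨φ, hφ, hφ'⟩ := hsel
        (fun s => (∀ j ∈ s, ∀ j' ∈ s, j ≠ j' → ∀ᶠ i in (U : Filter ℕ), γ i j ≠ γ i j') ∧
          ∀ j ∈ s, ∀ c, ∀ᶠ i in (U : Filter ℕ), γ i j ≠ c)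
        (fun s i => (∀ j ∈ s, ∀ j' ∈ s, j ≠ j' → γ i j ≠ γ i j') ∧
          ∀ j ∈ s, ∀ p ∈ s, ∀ q ∈ s, γ i j ≠ γ p q) (by simp) (by
          intro s hs
          refine Filter.Eventually.and (Filter.Eventually.and ?_ ?_)
            (Filter.Eventually.and ?_ ?_)
          · rw [Filter.eventually_all_finset]
            intro j hj
            rw [Filter.eventually_all_finset]
            intro j' hj'
            by_cases hjj : j = j'
            · simp [hjj]
            · exact (hs.1 j hj j' hj' hjj).mono (fun i hi _ => hi)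
          · rw [Filter.eventually_all_finset]
            intro j hj
            rw [Filter.eventually_all_finset]
            intro p hp
            rw [Filter.eventually_all_finset]
            intro q hq
            exact hs.2 j hj _
          · have h3 : ∀ᶠ y in (U : Filter ℕ), ∀ j ∈ s,
                ∀ᶠ i in (U : Filter ℕ), γ i y ≠ γ i j := by
              rw [Filter.eventually_all_finset]
              intro j _
              exact h2 j
            refine h3.mono ?_
            intro y hy j hj j' hj' hjj
            rcases Finset.mem_insert.mp hj with hjy | hjs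
            · rcases Finset.mem_insert.mp hj' with hjy' | hjs'
              · exact absurd (hjy.trans hjy'.symm) hjj
              · rw [hjy]
                exact hy j' hjs'
            · rcases Finset.mem_insert.mp hj' with hjy' | hjs'
              · rw [hjy']
                exact (hy j hjs).mono (fun i hi => hi.symm)
              · exact hs.1 j hjs j' hjs' hjj
          · refine h1'.mono ?_
            intro y hy j hj
            rcases Finset.mem_insert.mp hj with rfl | hj
            · exact hy
            · exact hs.2 j hj)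
      refine ⟨φ, hφ, Or.inl ?_⟩
      intro i j i' j' hj hj' he
      rcases lt_trichotomy i i' with hlt | heq | hgt'
      · exact absurd he.symm ((hφ' i').2 (φ j') (hmem φ i' j' hj') (φ i) (hmem φ i' i hlt)
          (φ j) (hmem φ i' j (hj.trans hlt)))
      · subst heq
        refine ⟨rfl, ?_⟩
        by_contra hjj
        exact (hφ' i).1 (φ j) (hmem φ i j hj) (φ j') (hmem φ i j' hj')
          (fun h => hjj (hφ.injective h)) he
      · exact absurd he ((hφ' i).2 (φ j) (hmem φ i j hj) (φ i') (hmem φ i i' hgt')
          (φ j') (hmem φ i j' (hj'.trans hgt')))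

/-- `T_2` is closed under composition. -/
lemma T2_comp {f g h : ℕ → ℕ → ℕ} (hf : f ∈ T2) (hg : g ∈ T2) (hh : h ∈ T2) :
    (fun x y => f (g x y) (h x y)) ∈ T2 := by
  intro hcon
  obtain ⟨I, u, hu⟩ := SW.of_somewhereInjective hcon
  obtain ⟨φ, hφ, hinj | ⟨s, a, ha⟩⟩ := canonical
    (fun i j => g (mix I u i j true) (mix I u i j false))
  · refine hg (somewhereInjective_of_pattern (a := u true ∘ φ) (b := u false ∘ φ)
      (s := I true) (t := I false) ?_)
    intro i j i' j' hj hj' he
    refine hinj i j i' j' hj hj' ?_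
    simp only [Function.comp_apply, apply_ite φ] at he
    exact he
  · obtain ⟨χ, hχ, hinj | ⟨t, b, hb⟩⟩ := canonical
      (fun i j => h (mix I u (φ i) (φ j) true) (mix I u (φ i) (φ j) false))
    · refine hh (somewhereInjective_of_pattern (a := u true ∘ φ ∘ χ) (b := u false ∘ φ ∘ χ)
        (s := I true) (t := I false) ?_)
      intro i j i' j' hj hj' he
      refine hinj i j i' j' hj hj' ?_
      simp only [Function.comp_apply, apply_ite χ, apply_ite φ] at he
      exact he
    · refine hf (somewhereInjective_of_pattern (a := a ∘ χ) (b := b) (s := s) (t := t) ?_)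
      intro i j i' j' hj hj' he
      have e1 := ha (χ i) (χ j) (hχ hj)
      have e2 := hb i j hj
      have e1' := ha (χ i') (χ j') (hχ hj')
      have e2' := hb i' j' hj'
      simp only [Function.comp_apply, apply_ite χ] at he
      have := hu (φ (χ i)) (φ (χ j)) (φ (χ i')) (φ (χ j')) (hφ (hχ hj)) (hφ (hχ hj')) (by
        simp only at e1 e2 e1' e2' ⊢
        rw [e1, e2, e1', e2']
        exact he)
      exact ⟨hχ.injective (hφ.injective this.1), hχ.injective (hφ.injective this.2)⟩

/-! ## The polymorphism clone and the final result -/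

/-- The set of all operations preserving `T_2`. -/
def polT2 : Set Operation :=
  {p | ∀ g : Fin (p.1 + 1) → ℕ → ℕ → ℕ, (∀ i, g i ∈ T2) → (fun x y => p.2 fun i => g i x y) ∈ T2}

lemma fst_mem_T2 : (fun x _ => x : ℕ → ℕ → ℕ) ∈ T2 := not_somewhereInjective_unary (fun x => x)

lemma unary_snd_mem_T2 (φ : ℕ → ℕ) : (fun _ y => φ y : ℕ → ℕ → ℕ) ∈ T2 := by
  rintro ⟨u, v, h | h⟩
  · have := @h (0, 2) (by simp) (1, 2) (by simp) rfl
    simp at this
  · have := @h (1, 0) (by simp) (2, 0) (by simp) rfl
    simp at this

lemma isClone_polT2 : IsClone polT2 where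
  proj_mem n i := by
    intro g hg
    exact hg i
  comp_mem m n f g hf hg := by
    intro h hh
    exact hf (fun i x y => g i fun l => h l x y) (fun i => hg i h hh)

lemma binaryFragment_polT2 : binaryFragment polT2 = T2 := by
  ext f
  constructor
  · intro hf
    have := hf ![fun x _ => x, fun _ y => y] (by
      intro i
      fin_cases i
      · exact fst_mem_T2
      · exact unary_snd_mem_T2 (fun y => y))
    exact this
  · intro hf g hg
    exact T2_comp hf (hg 0) (hg 1)

lemma isClone_cloneGeneratedBy (S : Set Operation) : IsClone (cloneGeneratedBy S) where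
  proj_mem n i := by
    rintro C ⟨hC, _⟩
    exact hC.proj_mem n i
  comp_mem m n f g hf hg := by
    rintro C ⟨hC, hS⟩
    exact hC.comp_mem m n f g (hf C ⟨hC, hS⟩) (fun i => hg i C ⟨hC, hS⟩)

lemma subset_cloneGeneratedBy (S : Set Operation) : S ⊆ cloneGeneratedBy S := by
  rintro p hp C ⟨_, hS⟩
  exact hS hp

/-- The clone generated by `T_2`, the set of all nowhere 1-1 binary operations on `ω`, is
`Pol(T_2)`, the largest clone on `ω` whose binary fragment is `T_2`. -/
theorem main : IsPol T2 (cloneGeneratedBy (ofBinary '' T2)) := by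
  refine ⟨⟨isClone_cloneGeneratedBy _, ?_⟩, ?_⟩
  · refine Set.Subset.antisymm ?_ ?_
    · intro f hf
      have h1 : ofBinary f ∈ polT2 := hf polT2 ⟨isClone_polT2, by
        rintro _ ⟨g, hg, rfl⟩
        have : g ∈ binaryFragment polT2 := by
          rw [binaryFragment_polT2]
          exact hg
        exact this⟩
      have h2 : f ∈ binaryFragment polT2 := h1
      rwa [binaryFragment_polT2] at h2
    · intro f hf
      exact subset_cloneGeneratedBy _ ⟨f, hf, rfl⟩
  · rintro C ⟨hC, hC2⟩ ⟨n, f⟩ hf D ⟨hD, hSD⟩
    -- `f` is nowhere 1-1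
    have hfSW : ¬ SW f := by
      rintro ⟨I, u, hu⟩
      have hmem : (fun x y => f (fun k => u k (if I k then x else y))) ∈ T2 := by
        rw [← hC2]
        have := hC.comp_mem n 1 f
          (fun k z => u k (if I k then z 0 else z 1)) hf (by
            intro k
            have : (fun x y => u k (if I k then x else y)) ∈ T2 := by
              cases hk : I k
              · simpa using unary_snd_mem_T2 (u k)
              · have h1 : (fun x _ => u k x : ℕ → ℕ → ℕ) ∈ T2 := not_somewhereInjective_unary (u k)
                simpa using h1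
            rw [← hC2] at this
            exact this)
        exact this
      refine hmem ⟨id, id, Or.inr ?_⟩
      rintro ⟨i, j⟩ hij ⟨i', j'⟩ hij' he
      have := hu i j i' j' hij hij' he
      simp [this.1, this.2]
    -- closure of the `(n+1)`-ary part of `D` under `T_2`
    let A : Set ((Fin (n + 1) → ℕ) → ℕ) := {a | (⟨n, a⟩ : Operation) ∈ D}
    have hA : Closed A := by
      intro g hg a ha b hb
      have hgD : ofBinary g ∈ D := hSD ⟨g, hg, rfl⟩
      have := hD.comp_mem 1 n (fun x => g (x 0) (x 1)) ![a, b] hgD (by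
        intro i
        fin_cases i
        · exact ha
        · exact hb)
      exact this
    have hproj : ∀ i : Fin (n + 1), (fun x : Fin (n + 1) → ℕ => x i) ∈ A :=
      fun i => hD.proj_mem n i
    exact mem_of_not_SW hA ⟨_, hproj 0⟩ (n + 1) (Fin (n + 1)) (by simp) f hfSW
      (fun i x => x i) hproj

end Pool.Agent.Lib_MP_944b5f_al
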